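import Pool.Agent.Helper63.XP.StA

/-!
# Project XP, module PEL: peeling, and a simple Bonferroni inequality
-/

set_option autoImplicit false

namespace Pool.Agent.Helper38.XP

open Finset
open Pool.Agent.Helper63.XP

theorem peel (T U : Type) [DecidableEq T] [DecidableEq U] (A : T → Finset U) (J : ℕ) :
    ∀ (n : ℕ) (T0 : Finset T) (U0 : Finset U), T0.card + U0.card = n →
    U0.card + T0.card * J < ∑ t ∈ T0, (A t ∩ U0).card →
    ∃ T' ⊆ T0, ∃ U' ⊆ U0, T'.Nonempty ∧ (∀ t ∈ T', J ≤ (A t ∩ U').card) ∧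
      ∀ u ∈ U', 2 ≤ (T'.filter fun t => u ∈ A t).card := by
  intro n
  induction n with
  | zero =>
    intro T0 U0 hn h
    have h1 : T0.card = 0 := by omega
    have h2 : U0.card = 0 := by omega
    rw [Finset.card_eq_zero] at h1 h2
    subst h1 h2
    simp at h
  | succ n ih =>
    intro T0 U0 hn h
    by_cases hT : ∀ t ∈ T0, J ≤ (A t ∩ U0).card
    · by_cases hU : ∀ u ∈ U0, 2 ≤ (T0.filter fun t => u ∈ A t).card
      · refine ⟨T0, Finset.Subset.refl _, U0, Finset.Subset.refl _, ?_, hT, hU⟩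
        rw [Finset.nonempty_iff_ne_empty]
        rintro rfl
        simp at h
      · push_neg at hU
        obtain ⟨u, hu, hu2⟩ := hU
        have hc : (U0.erase u).card + 1 = U0.card := Finset.card_erase_add_one hu
        have hs : ∑ t ∈ T0, (A t ∩ U0).card
            = ∑ t ∈ T0, (A t ∩ U0.erase u).card + (T0.filter fun t => u ∈ A t).card := by
          rw [Finset.card_filter, ← Finset.sum_add_distrib]
          apply Finset.sum_congr rfl
          intro t _
          by_cases hut : u ∈ A t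
          · rw [if_pos hut]
            have : A t ∩ U0.erase u = (A t ∩ U0).erase u := by
              rw [Finset.inter_erase]
            rw [this, Finset.card_erase_add_one (Finset.mem_inter.2 ⟨hut, hu⟩)]
          · rw [if_neg hut]
            have : A t ∩ U0.erase u = A t ∩ U0 := by
              rw [Finset.inter_erase, Finset.erase_eq_of_notMem]
              intro hm
              exact hut (Finset.mem_inter.1 hm).1
            rw [this, add_zero]
        obtain ⟨T', hT', U', hU', h3⟩ := ih T0 (U0.erase u) (by omega) (by omega)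
        exact ⟨T', hT', U', hU'.trans (Finset.erase_subset _ _), h3⟩
    · push_neg at hT
      obtain ⟨t, ht, ht2⟩ := hT
      have hc : (T0.erase t).card + 1 = T0.card := Finset.card_erase_add_one ht
      have hs : (A t ∩ U0).card + ∑ s ∈ T0.erase t, (A s ∩ U0).card
          = ∑ s ∈ T0, (A s ∩ U0).card := Finset.add_sum_erase T0 (fun s => (A s ∩ U0).card) ht
      have hm : T0.card * J = (T0.erase t).card * J + J := by
        rw [← hc]; ring
      obtain ⟨T', hT', U', hU', h3⟩ := ih (T0.erase t) U0 (by omega) (by omega)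
      exact ⟨T', hT'.trans (Finset.erase_subset _ _), U', hU', h3⟩

theorem bonf (U T : Type) [Fintype U] [DecidableEq U] [DecidableEq T] (y : U → ℝ)
    (G : T → Finset U) (κ δ : ℝ) (T1 : Finset T) (F : T → ℝ) (hy : ∀ u, 0 ≤ y u)
    (hκ : ∑ u, y u ≤ κ) (hδ : ∀ t ∈ T1, ∀ u ∈ G t, y u ≤ δ) (hδ0 : 0 ≤ δ)
    (hG : ∀ t ∈ T1, ∀ t' ∈ T1, t ≠ t' → (G t ∩ G t').card ≤ 1)
    (hF : ∀ t ∈ T1, F t ≤ ∑ u ∈ G t, y u) (hT : (T1.card : ℝ) ^ 2 * δ ≤ 1) :
    ∑ t ∈ T1, F t ≤ κ + 1 := by
  have e1 : ∑ t ∈ T1, ∑ u ∈ G t, y u = ∑ u, ((T1.filter fun t => u ∈ G t).card : ℝ) * y u := by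
    have : ∀ t ∈ T1, ∑ u ∈ G t, y u = ∑ u, if u ∈ G t then y u else 0 := by
      intro t _
      rw [Finset.sum_ite_mem, Finset.univ_inter]
    rw [Finset.sum_congr rfl this, Finset.sum_comm]
    apply Finset.sum_congr rfl
    intro u _
    rw [← Finset.sum_filter, Finset.sum_const, nsmul_eq_mul]
  have e2 : ∑ p ∈ T1.offDiag, ∑ u ∈ G p.1 ∩ G p.2, y u
      = ∑ u, ((T1.filter fun t => u ∈ G t).offDiag.card : ℝ) * y u := by
    have : ∀ p ∈ T1.offDiag, ∑ u ∈ G p.1 ∩ G p.2, y u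
        = ∑ u, if u ∈ G p.1 ∩ G p.2 then y u else 0 := by
      intro p _
      rw [Finset.sum_ite_mem, Finset.univ_inter]
    rw [Finset.sum_congr rfl this, Finset.sum_comm]
    apply Finset.sum_congr rfl
    intro u _
    rw [← Finset.sum_filter, Finset.sum_const, nsmul_eq_mul]
    congr 2
    apply congrArg
    ext p
    simp only [Finset.mem_filter, Finset.mem_offDiag, Finset.mem_inter]
    tauto
  have h1 : ∀ u, ((T1.filter fun t => u ∈ G t).card : ℝ) * y u
      ≤ y u + ((T1.filter fun t => u ∈ G t).offDiag.card : ℝ) * y u := by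
    intro u
    rw [Finset.offDiag_card]
    set N := (T1.filter fun t => u ∈ G t).card with hN
    have h2 : N ≤ 1 + (N * N - N) := by
      rcases Nat.lt_or_ge N 2 with h | h
      · omega
      · have : 2 * N ≤ N * N := Nat.mul_le_mul_right N h
        omega
    have h3 : (N : ℝ) ≤ 1 + ((N * N - N : ℕ) : ℝ) := by exact_mod_cast h2
    nlinarith [hy u]
  have h2 : ∑ p ∈ T1.offDiag, ∑ u ∈ G p.1 ∩ G p.2, y u ≤ (T1.card : ℝ) ^ 2 * δ := by
    have h3 : ∀ p ∈ T1.offDiag, ∑ u ∈ G p.1 ∩ G p.2, y u ≤ δ := by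
      intro p hp
      rw [Finset.mem_offDiag] at hp
      have h4 : ∑ u ∈ G p.1 ∩ G p.2, y u ≤ (G p.1 ∩ G p.2).card • δ := by
        apply Finset.sum_le_card_nsmul
        intro u hu
        exact hδ p.1 hp.1 u (Finset.mem_inter.1 hu).1
      have h5 : ((G p.1 ∩ G p.2).card : ℝ) ≤ 1 := by
        exact_mod_cast hG p.1 hp.1 p.2 hp.2.1 hp.2.2
      rw [nsmul_eq_mul] at h4
      nlinarith
    have h6 := Finset.sum_le_card_nsmul _ _ _ h3
    rw [nsmul_eq_mul] at h6
    have h7 : (T1.offDiag.card : ℝ) ≤ (T1.card : ℝ) ^ 2 := by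
      rw [Finset.offDiag_card, pow_two]
      exact_mod_cast Nat.sub_le _ _
    nlinarith
  calc ∑ t ∈ T1, F t ≤ ∑ t ∈ T1, ∑ u ∈ G t, y u := Finset.sum_le_sum hF
    _ = ∑ u, ((T1.filter fun t => u ∈ G t).card : ℝ) * y u := e1
    _ ≤ ∑ u, (y u + ((T1.filter fun t => u ∈ G t).offDiag.card : ℝ) * y u) :=
        Finset.sum_le_sum (fun u _ => h1 u)
    _ = ∑ u, y u + ∑ p ∈ T1.offDiag, ∑ u ∈ G p.1 ∩ G p.2, y u := by
        rw [Finset.sum_add_distrib, e2]
    _ ≤ κ + 1 := by linarith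

theorem hPEL : StPel :=
  ⟨fun T U _ _ A T0 U0 J h => peel T U A J _ T0 U0 rfl h,
    fun U T _ _ _ y G κ δ T1 F h1 h2 h3 h4 h5 h6 h7 => bonf U T y G κ δ T1 F h1 h2 h3 h4 h5 h6 h7⟩

end Pool.Agent.Helper38.XP
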